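import Pool.Agent.Lib_MP_55d5ef_fl.PkLink
import Pool.Agent.Lib_MP_55d5ef_fl.PkD
import Pool.Agent.Lib_MP_55d5ef_b4.T00
import Pool.Agent.Lib_MP_55d5ef_b4.T01

/-! Check of the part 0. -/

namespace B4

open Fl49

theorem R00 : prtChk T00 T01 0 L00 504
    0x78900788007870078600785007840077f0077b007770077600774007730076d00766007650075a0075800756006f6006f5006dc006db006a30069d00633005af005ae005ad005ac005aa005a9005a8005a6005a5005a2005a10059b0059800597005960056b005690056500562005600054d0053e0053d00536005340053300531005300052e0052b005290051f0051d0051800507004ec004eb004e6004e5004e3004e2004d5004d2004cf004cb004ca004b9004b80049e0049d0049c004930049200491004900048c0048a004830047f0047e0046d00439004380043600435004340043300431004300042f0042e0042d0042c00423004200041f0041e003f4003da003d9003d8003d7003d2003ca003c9003c5003c3003c2003c1003bc003ba003b9003b3003980038a003890038700386003840037d0037c00379003770037600371003700036f0036e0036c0035a003590035700355003430034200341003370032c0032b0032a0032900327003150031400304003030030200301002f3002f2002f1002f0002e2002e1002d5002d3002d2002d1002cf002ce002cd002cc002c9002c8002b4002ad002a40029e0029a00299002980029600295002940029300292002900028600281002800027c0027b00272002680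02620025e00259002540024e002450024400242002410023b0023600231002300022f0022d0022c0022a0021d00217002130020b0020500201001ff001fc001f8001f7001e6001e4001e2001e1001dc001da001d8001d7001d5001d4001d3001d2001d1001d0001cf001ce001cd001cc001cb001c2001c0001bc001ba001b4001b3001ae001ab001a8001a7001a6001a3001a2001a1001a00019f0018a001880018700184001830017d0017c0017b001600015f0015800157001550015300152001510014f0014c0014800146001450014200141001400013f0013e0013d0013b0013a00136001350013400132001310012b0012a001290012400123001210011d0011c0011b0011700113001120010a001090010700106000fe000fd000fc000f9000f8000f7000f4000f2000ec000e3000e2000e1000e0000db000da000d9000d8000d6000cc000c5000bf000be000bd000ba000b6000a8000a70009b000990009400092000900008f0008e0008d0008c0008b000850008300082000810007f0007b0007a0007700072000630006200061000600005e0005c000560005100050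
    356 1930 = true := by
  decide +kernel

end B4
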