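import Pool.Agent.Lib_MP_55d5ef_fl.PkLink
import Pool.Agent.Lib_MP_55d5ef_fl.PkD
import Pool.Agent.Lib_MP_55d5ef_b4.T01
import Pool.Agent.Lib_MP_55d5ef_b4.T02

/-! Check of the part 1. -/

namespace B4

open Fl49

theorem R01 : prtChk T01 T02 1574 L01 356
    0x73a00739007380072800726006e8006cf00692006910067f0065c0065b0065a00656006550065400652006510064f0064e0064d0064c00649006470064500643006420063e0063d0063c006390062e0062a005d5005d4005d3005ca005c9005af005ae005a6005a4005a1005a00059e0059d00598005840057f0057d0057a0057900574005700056f005500054f0050c0050b004dc004db0049d0049c004970049300492004760047100468003960019300191001900018800187001690015c0015600155001540015300152001500014f0014d0014b0014a001490014700143001350013200130001290012800127001250012300121001200011f0011e0011d0011c0011b0011a001190011800117001160011500114001130011200111001100010e0010c0010b0010a001090010800106001050010400103001020010100100000ff000fe000fd000fc000fb000fa000f9000f8000f7000f6000f5000f4000f3000f2000f1000f0000ef000ee000ed000ec000eb000ea000e9000e8000e7000e6000e5000e4000e3000e2000e1000e0000df000de000dc000db000da000d9000d8000d7000d5000d4000d3000d2000d1000ce000cd000cc000cb000ca000c9000c8000c7000c6000c5000c4000c3000c2000c0000bf000be000bd000bc000bb000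b9000b8000b7000b6000b5000b4000b3000b2000b1000ae000ad000ac000a7000a6000a5000a4000a3000a2000a1000a00009f0009e0009d0009c00099000980009700095000940009200091000900008f0008e0008d0008a00088000870008600085000840008300081000800007f0007e0007d0007c0007b0007a00079000770007600075000700006f0006e0006d0006c0006b0006a000690006800067000660006500064000630006200061000600005e0005d0005c0005b0005a000590005800057000560005500054000530005200051000500004f0004e0004d0004c0004a000490004800047000450004300041000400003f0003e0003d0003a000390003800037000360003500034000330003200031000300002f0002e0002d0002c0002b0002a000290002800027000260002500024000230002200021000200001f0001e0001d0001c0001900018000170001600015000140001300012000110000d0000a00009000080000700006000050000400003000020000100000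
    346 1851 = true := by
  decide +kernel

end B4
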