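import Pool.Agent.Lib_MP_55d5ef_fl.PkLink
import Pool.Agent.Lib_MP_55d5ef_fl.PkD
import Pool.Agent.Lib_MP_55d5ef_b4.T02
import Pool.Agent.Lib_MP_55d5ef_b4.T03

/-! Check of the part 2. -/

namespace B4

open Fl49

theorem R02 : prtChk T02 T03 3079 L02 346
    0x7180071700716007150071400713007110070f0070e0070c0070a00709007060070500704007020070100700006fd006fb006f8006f7006f6006f5006f4006f2006f1006ef006ed006eb006e8006e5006e2006e0006df006dd006d9006d8006d7006d5006d4006d2006d0006c6006c4006b8006b6006b3006b0006ab006a70069700695006900068c006840065700652006510064f0064e0064c0064b006490063a00639006380063700634006330062a0062800626005f5005f2005f1005ef005ee005ec005e9005e5005a3005940055e0055d0055b0055900557005550055300551005500054d00545005150051400513005120050c0050a00503004fe004d8004d7004cf004ce004b600486004790047800473004700046f00466004630045c00459004570043100425003f2003f1003f0003ef003ee003ec003ea00310002e9002e8002ba001520014c0014b0014a00145001440014300142001400013f0013800137001360013500134001330013200131001300012e0012c0012b0012a00129001280012700126001230012200121001200011f0011e0011d0011c0011b0011a0011800115001130011200111001100010f0010e0010d0010c0010b0010a00109001080010700105000ff000fe000fd000fc000fa000f7000f6000f5000f2000ef000ed000ec000eb000ea000e9000e8000e4000d9000c7000c6000b7000b6000b5000b4000b3000b2000b1000ae000ab000aa000a9000a8000a7000a6000a3000a2000a1000a00009f0009e0009d0009c0009b0009a000990009800097000960008f0008c0008a0008400083000810007d0007b0007a0007800077000760005f0005e0005b0005400053000520004900038000310002f0002e0002d000290002800027000260002500024000230001d0001b0001a000190001800015000140001300011000100000f0000e0000d0000c0000a00009000080000700006000050000400003000020000100000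
    288 1817 = true := by
  decide +kernel

end B4
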