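import Pool.Agent.Lib_MP_55d5ef_fl.PkLink
import Pool.Agent.Lib_MP_55d5ef_fl.PkD
import Pool.Agent.Lib_MP_55d5ef_b4.T03
import Pool.Agent.Lib_MP_55d5ef_b4.T04

/-! Check of the part 3. -/

namespace B4

open Fl49

theorem R03 : prtChk T03 T04 4608 L03 288
    0x6d6006d5006d4006d3006d1006ce006c0006bf006be006bc006bb006ba006b7006b6006b5006b3006b0006af006ac006ab006aa006a9006a8006a7006a50069c0069b006900068f0068e0068c005df005de005dc005db005da005d8005d6005d5005d2005d1005c2005c1005b9005b5005af005ae005a80059a00599005970059400593005910058e00582005810057e0057500557005500054c0054b005400053c005300052900526005250052300522005210051b0051a005170050f004ff004fe004fc004f9004c2004c1004b9004b6004b4004b0004af004ae004ad004ac004ab004a9004a10049f0049e0049a00495004940048f0044b0044800447004300042f0042b004280041f0041e0041b00419004160041500413004100040e003ec003e9003e4003dc003940038c0038900372003700036f0036100358003550034b0034500343003300032e0032c0032b0032800326003250032400322003210031f00313002d6002d3002c0002810027b00279002780027400270002670022e0022b002290022700223001ea001e9001df001d3001ba001a00018b001880015e0015c0015a001520014f001260011e0011d0010600105000f7000f5000f4000ee000ec000eb000e8000e7000e6000e4000e3000df000d9000d8000ce000cd000cc000c2000b4000b2000ac0009d0009a0009900098000800007600074000730007100070000550003300032000310002f0002d0001c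
    214 1751 = true := by
  decide +kernel

end B4
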