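import Pool.Agent.Lib_MP_55d5ef_fl.PkLink
import Pool.Agent.Lib_MP_55d5ef_fl.PkD
import Pool.Agent.Lib_MP_55d5ef_b4.T04
import Pool.Agent.Lib_MP_55d5ef_b4.T05

/-! Check of the part 4. -/

namespace B4

open Fl49

theorem R04 : prtChk T04 T05 6145 L04 214
    0x68c0068b0068a00689006870068600685006840068300681006800067e0067d0067a006790067700676006750067400672006710066d0066c0066b0066a00668006670066500663006620065500652006500064c0064a00649006330063200631006300062f0062e0062d00627006260062500624006220061f0061e0061d0061900617006160060800601005fe005fd005f40058e0058d0058b0058a0058900588005870058400582005800057c0057a005790057600574005730054800547005400053f0053d00539005310052f0052b0052a004df004d7004d2004cf0045f0040700406003fd003fa003f9003f8002f8002f7002e0002d5002d4002d200121001200010d0010c0010800104000f0000ef000e9000dd000ce000b6000b5000b2000b1000ac000ab000900008f0008a000890008700086000720006d000540003b000340002f0002e0002d0002c0001b0001a00019000180000b00001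
    140 1677 = true := by
  decide +kernel

end B4
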