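import Pool.Agent.Lib_MP_55d5ef_fl.PkLink
import Pool.Agent.Lib_MP_55d5ef_fl.PkD
import Pool.Agent.Lib_MP_55d5ef_b4.T05
import Pool.Agent.Lib_MP_55d5ef_b4.T06

/-! Check of the part 5. -/

namespace B4

open Fl49

theorem R05 : prtChk T05 T06 7682 L05 140
    0x63900638006370063600635006340063300632006300062f0062a0062900604005e2005e1005e0005df005dd005c3005c2005c1005c0005be005bd005ba005b8005b7005a2005a1005720054c0054b0051c0051b0051a0051800517004ff004f3004f1004ee004d8004530044e00409003ef0031700307
    48 1594 = true := by
  decide +kernel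

end B4
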