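import Pool.Agent.Lib_MP_55d5ef_fl.PkLink
import Pool.Agent.Lib_MP_55d5ef_fl.PkD
import Pool.Agent.Lib_MP_55d5ef_b4.T06
import Pool.Agent.Lib_MP_55d5ef_b4.T07

/-! Check of the part 6. -/

namespace B4

open Fl49

theorem R06 : prtChk T06 T07 9228 L06 48
    0x60d0060c0060b0060900608006060060400603006020060100600005fe005fc005f9005f8005f7005f6005f5005f4005f3005f2005f1005ec005ea005e9005e7005e6005d5005cb005ca005c6005c2005b5005a50059c0059b0059a005990059800597005800057f00562004fe004f8004f5004c00040f003e2003e1003e0003df
    52 1550 = true := by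
  decide +kernel

end B4
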