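import Pool.Agent.Lib_MP_55d5ef_fl.PkLink
import Pool.Agent.Lib_MP_55d5ef_fl.PkD
import Pool.Agent.Lib_MP_55d5ef_b4.T07
import Pool.Agent.Lib_MP_55d5ef_b4.T08

/-! Check of the part 7. -/

namespace B4

open Fl49

theorem R07 : prtChk T07 T08 10726 L07 52
    0x60b0060a0060900607005ff005fe005fd005fc005f3005f2005ed005ec005ea005e0005de005dc005db005d4005d3005d1005c8005c7005c6005c5005c4005bd005b9005b1005a50059e005890057600569005640055d0054600545004e4004980045600453004510044e00002
    44 1548 = true := by
  decide +kernel

end B4
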