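import Pool.Agent.Lib_MP_55d5ef_fl.PkLink
import Pool.Agent.Lib_MP_55d5ef_fl.PkD
import Pool.Agent.Lib_MP_55d5ef_b4.T08
import Pool.Agent.Lib_MP_55d5ef_b4.T09

/-! Check of the part 8. -/

namespace B4

open Fl49

theorem R08 : prtChk T08 T09 12230 L08 44
    0x6060060500604006030060200601005ff005fe005f6005f5005f4005f1005e9005e8005e7005e4005df005dd005d8005d7005d2005d1005d0005cf005c6005c3005c2005c0005bf005be005bd005bb005ba005b9005b3005b2005a9005a4005900056100467002c2
    42 1543 = true := by
  decide +kernel

end B4
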