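import Pool.Agent.Lib_MP_55d5ef_fl.PkLink
import Pool.Agent.Lib_MP_55d5ef_fl.PkD
import Pool.Agent.Lib_MP_55d5ef_b4.T09
import Pool.Agent.Lib_MP_55d5ef_b4.T10

/-! Check of the part 9. -/

namespace B4

open Fl49

theorem R09 : prtChk T09 T10 13731 L09 42
    0x6020060100600005ff005fe005fd005fc005fb005f9005f5005f4005f3005f2005ec005e9005e3005e1005d6005d5005d4005d1005b7005b6005b5005b4005a10059e0055400441004400043400411002c2002be002ab002aa
    36 1539 = true := by
  decide +kernel

end B4
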