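import Pool.Agent.Lib_MP_55d5ef_fl.PkLink
import Pool.Agent.Lib_MP_55d5ef_fl.PkD
import Pool.Agent.Lib_MP_55d5ef_b4.T11
import Pool.Agent.Lib_MP_55d5ef_b4.T12

/-! Check of the part 11. -/

namespace B4

open Fl49

theorem R11 : prtChk T11 T12 16739 L11 26
    0x5f7005f6005f5005f4005f3005f2005f1005f0005ef005ee005ed005ec005eb005ea005e7005e5005e4005e2005de005d8005bc005ba005b9005b4005a6005a5005a4005a10059100510
    30 1528 = true := by
  decide +kernel

end B4
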