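import Pool.Agent.Lib_MP_55d5ef_fl.PkLink
import Pool.Agent.Lib_MP_55d5ef_fl.PkD
import Pool.Agent.Lib_MP_55d5ef_b4.T12
import Pool.Agent.Lib_MP_55d5ef_b4.T13

/-! Check of the part 12. -/

namespace B4

open Fl49

theorem R12 : prtChk T12 T13 18237 L12 30
    0x5f7005f6005f5005f4005f3005f1005ef005ed005eb005ea005e7005e6005e3005d2005c8005c700496003e7003e6003e5003e4003e2003e1003dc0038c0035a
    26 1528 = true := by
  decide +kernel

end B4
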