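import Pool.Agent.Lib_MP_55d5ef_fl.PkLink
import Pool.Agent.Lib_MP_55d5ef_fl.PkD
import Pool.Agent.Lib_MP_55d5ef_b4.T13
import Pool.Agent.Lib_MP_55d5ef_b4.T14

/-! Check of the part 13. -/

namespace B4

open Fl49

theorem R13 : prtChk T13 T14 19739 L13 26
    0x5ed005ec005eb005ea005e9005e7005e6005e4005b6004ce
    10 1518 = true := by
  decide +kernel

end B4
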