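import Pool.Agent.Lib_MP_55d5ef_fl.PkLink
import Pool.Agent.Lib_MP_55d5ef_fl.PkD
import Pool.Agent.Lib_MP_55d5ef_b4.T14
import Pool.Agent.Lib_MP_55d5ef_b4.T15

/-! Check of the part 14. -/

namespace B4

open Fl49

theorem R14 : prtChk T14 T15 21247 L14 10
    0x5e7005e6005e5005e4005e3005e1005d3005d2005cc005ca005c7005b3005ad00164
    14 1512 = true := by
  decide +kernel

end B4
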