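import Pool.Agent.Lib_MP_55d5ef_fl.PkLink
import Pool.Agent.Lib_MP_55d5ef_fl.PkD
import Pool.Agent.Lib_MP_55d5ef_b4.T15
import Pool.Agent.Lib_MP_55d5ef_b4.T16

/-! Check of the part 15. -/

namespace B4

open Fl49

theorem R15 : prtChk T15 T16 22745 L15 14
    0x5e6005e5005e3005e0005de005d10059500594
    8 1511 = true := by
  decide +kernel

end B4
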