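import Pool.Agent.Lib_MP_55d5ef_fl.PkD
import Pool.Agent.Lib_MP_55d5ef_b4.T16

/-! Check of the last part. -/

namespace B4

open Fl49

theorem R16 : endChk T16 24248 L16 8
    0x368000000000001b3000000000000d90000000000006c40000000000036011a344688001af = true := by
  decide +kernel

end B4
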