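import Pool.Agent.Lib_MP_55d5ef_b4.S00
import Pool.Agent.Lib_MP_55d5ef_b4.R00
import Pool.Agent.Lib_MP_55d5ef_b4.R01
import Pool.Agent.Lib_MP_55d5ef_b4.R02
import Pool.Agent.Lib_MP_55d5ef_b4.R03
import Pool.Agent.Lib_MP_55d5ef_b4.R04
import Pool.Agent.Lib_MP_55d5ef_b4.R05
import Pool.Agent.Lib_MP_55d5ef_b4.R06
import Pool.Agent.Lib_MP_55d5ef_b4.R07
import Pool.Agent.Lib_MP_55d5ef_b4.R08
import Pool.Agent.Lib_MP_55d5ef_b4.R09
import Pool.Agent.Lib_MP_55d5ef_b4.R10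
import Pool.Agent.Lib_MP_55d5ef_b4.R11
import Pool.Agent.Lib_MP_55d5ef_b4.R12
import Pool.Agent.Lib_MP_55d5ef_b4.R13
import Pool.Agent.Lib_MP_55d5ef_b4.R14
import Pool.Agent.Lib_MP_55d5ef_b4.R15
import Pool.Agent.Lib_MP_55d5ef_b4.R16

/-!
`N504` is PL homeomorphic to the boundary of the simplex of dimension 5 (8143 bistellar moves,
checked by the kernel).
-/

namespace B4

open Fl49 H4T H4C

/-- The run of 8143 moves ends at six records forming the boundary of a simplex. -/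
theorem b4 : ∃ (c : ℕ → Rk) (S1 : Set Rk), Full labK numK odK (Finset.range 6) c S1 ∧
    GdG labK odK S1 ∧
    PLE (labU : Fin 504 → Finset (Fin 5)) numN odN Set.univ labK numK odK S1 := by
  obtain ⟨i0, e0⟩ := start_ok S00
  obtain ⟨i1, f1⟩ := prtChk_sound R00 i0
  have e1 := e0.trans f1
  obtain ⟨i2, f2⟩ := prtChk_sound R01 i1
  have e2 := e1.trans f2
  obtain ⟨i3, f3⟩ := prtChk_sound R02 i2
  have e3 := e2.trans f3
  obtain ⟨i4, f4⟩ := prtChk_sound R03 i3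
  have e4 := e3.trans f4
  obtain ⟨i5, f5⟩ := prtChk_sound R04 i4
  have e5 := e4.trans f5
  obtain ⟨i6, f6⟩ := prtChk_sound R05 i5
  have e6 := e5.trans f6
  obtain ⟨i7, f7⟩ := prtChk_sound R06 i6
  have e7 := e6.trans f7
  obtain ⟨i8, f8⟩ := prtChk_sound R07 i7
  have e8 := e7.trans f8
  obtain ⟨i9, f9⟩ := prtChk_sound R08 i8
  have e9 := e8.trans f9
  obtain ⟨i10, f10⟩ := prtChk_sound R09 i9
  have e10 := e9.trans f10
  obtain ⟨i11, f11⟩ := prtChk_sound R10 i10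
  have e11 := e10.trans f11
  obtain ⟨i12, f12⟩ := prtChk_sound R11 i11
  have e12 := e11.trans f12
  obtain ⟨i13, f13⟩ := prtChk_sound R12 i12
  have e13 := e12.trans f13
  obtain ⟨i14, f14⟩ := prtChk_sound R13 i13
  have e14 := e13.trans f14
  obtain ⟨i15, f15⟩ := prtChk_sound R14 i14
  have e15 := e14.trans f15
  obtain ⟨i16, f16⟩ := prtChk_sound R15 i15
  have e16 := e15.trans f16
  obtain ⟨c, S1, h1, h2, h3⟩ := endChk_sound R16 i16
  exact ⟨c, S1, h1, h2, e16.trans h3⟩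

end B4
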