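import Pool.Agent.Lib_MP_55d5ef_fl.PkLink
import Pool.Agent.Lib_MP_55d5ef_fl.PkD
import Pool.Agent.Lib_MP_55d5ef_b4.T10
import Pool.Agent.Lib_MP_55d5ef_b4.T11

/-! Check of the part 10. -/

namespace B4

open Fl49

theorem R10 : prtChk T10 T11 15234 L10 36
    0x5fa005f9005f6005f3005f2005f1005e8005e7005e6005e0005df005d5005cc005ca005c9005c6005c5005c4005b700572005700056f0056e0056b0056900565
    26 1531 = true := by
  decide +kernel

end B4
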