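import Pool.Agent.Lib_MP_55d5ef_fl.PkStart
import Pool.Agent.Lib_MP_55d5ef_b4.T00

/-! The first 504 records are the table of `N504`. -/

namespace B4

open Fl49

theorem S00 : stChk (tbg T00) = true := by decide +kernel

end B4
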